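import Pool.Agent.Work.MP_636246_an.Main

open MeasureTheory Filter Topology Pool.Agent.Work.MP_636246_an

/-- For the Henon map `(x, y) ↦ (y, y² + 9y/8 - x/8)` there is a bounded Hoelder weight with a
unique equilibrium state, carried by the Julia set, to which the weighted saddle point measures
do not converge. -/
theorem Pool.Agent.Results.MP_636246_an.NoEquidistribution.result :
    ∃ (φ : ℂ × ℂ → ℝ) (μ : Measure (ℂ × ℂ)) (P : ℝ),
      (∀ α : ℝ, 0 < α → α ≤ 1 → ∃ C : ℝ, ∀ z w : ℂ × ℂ,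
        |φ z - φ w| ≤ C * Real.sqrt (‖z.1 - w.1‖ ^ 2 + ‖z.2 - w.2‖ ^ 2) ^ α) ∧
      (∃ B : ℝ, ∀ z, |φ z| ≤ B) ∧
      pressure henon φ = (P : EReal) ∧
      (∀ ν : Measure (ℂ × ℂ),
        (ν ∈ invProb henon ∧ freeEnergy henon φ ν = (P : EReal)) ↔ ν = μ) ∧
      (∀ᵐ z ∂μ, z ∈ julia henon) ∧
      (∀ n : ℕ, (saddles henon n).Finite) ∧
      ¬ ∀ g : CompactlySupportedContinuousMap (ℂ × ℂ) ℝ,
        Tendsto (fun n : ℕ => Real.exp (-(n : ℝ) * P) *
            ∑ᶠ z ∈ saddles henon n, Real.exp (∑ j ∈ Finset.range n, φ (henon^[j] z)) * g z)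
          atTop (𝓝 (∫ z, g z ∂μ)) := by
  obtain ⟨t, ht, h⟩ := not_tendsto
  have ht0 : 0 ≤ t := by linarith
  exact ⟨phi t, Measure.dirac 0, 0, fun α h0 h1 => ⟨3 * t, phi_holder ht0 α h0 h1⟩,
    ⟨3 * t, phi_bdd ht0⟩, pressure_eq ht, unique_eq ht, by simpa using zero_mem_julia,
    finite_saddles, fun H => h (H bump)⟩
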