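import Pool.Agent.Work.MP_636246_an.S.Fin
import Pool.Agent.Work.MP_636246_an.S.Sad

open MeasureTheory Filter Topology Pool.Agent.Work.MP_636246_an

/-- For every `η > 0` and all small `b > 0`, the quadratic Henon map
`(x, y) ↦ (y, y² + (1 + b) y - b x)` has a Hoelder weight of oscillation less than `log 2 + η`
with a unique equilibrium state, carried by the Julia set and by the closure of the saddle points,
to which the weighted saddle point measures do not converge. -/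
theorem Pool.Agent.Results.MP_636246_an.SharpOscillation.result (η : ℝ) (hη : 0 < η) :
    ∃ b₀ : ℝ, 0 < b₀ ∧ ∀ b : ℝ, 0 < b → b ≤ b₀ → ∀ f : ℂ × ℂ → ℂ × ℂ,
      (∀ z : ℂ × ℂ, f z = (z.2, z.2 ^ 2 + (1 + b) * z.2 - b * z.1)) →
      ∃ (φ : ℂ × ℂ → ℝ) (μ : Measure (ℂ × ℂ)) (P : ℝ),
        (∀ z w : ℂ × ℂ, φ z - φ w < Real.log 2 + η) ∧
        (∀ α : ℝ, 0 < α → α ≤ 1 → ∃ C : ℝ, ∀ z w : ℂ × ℂ,
          |φ z - φ w| ≤ C * Real.sqrt (‖z.1 - w.1‖ ^ 2 + ‖z.2 - w.2‖ ^ 2) ^ α) ∧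
        pressure f φ = (P : EReal) ∧
        (∀ ν : Measure (ℂ × ℂ), (ν ∈ invProb f ∧ freeEnergy f φ ν = (P : EReal)) ↔ ν = μ) ∧
        (∀ᵐ z ∂μ, z ∈ julia f ∧ z ∈ closure (⋃ n : ℕ, saddles f n)) ∧
        (∀ n : ℕ, (saddles f n).Finite) ∧
        ¬ ∀ g : CompactlySupportedContinuousMap (ℂ × ℂ) ℝ,
          Tendsto (fun n : ℕ => Real.exp (-(n : ℝ) * P) *
              ∑ᶠ z ∈ saddles f n, Real.exp (∑ j ∈ Finset.range n, φ (f^[j] z)) * g z)
            atTop (𝓝 (∫ z, g z ∂μ)) := by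
  have hs : 0 < min η 1 / 20 := by positivity
  have hs1 : min η 1 / 20 ≤ 1 / 20 := by linarith [min_le_right η 1]
  have hs2 : min η 1 / 20 ≤ η / 20 := by linarith [min_le_left η 1]
  generalize min η 1 / 20 = s at hs hs1 hs2
  obtain ⟨b₀, ε, h0, hb, hε, hε1, H⟩ := S.entropy_sharp hs (by linarith)
  refine ⟨b₀, h0, fun b hb0 hb2 f hf => ?_⟩
  obtain rfl : f = S.hen b := funext hf
  replace H := H b hb0 hb2
  have hb9 : b ≤ 1 / 10 ^ 9 := by nlinarith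
  have hb1 : b ≤ 1 / 100 := by linarith
  obtain ⟨t, ht, ht1, h⟩ := S.not_tendsto' (t := Real.log 2 + 4 * s) hb0 hb1 hε hε1 hs
  have hl := Real.log_pos one_lt_two
  have ht0 : 0 ≤ t := by linarith
  have ht2 : Real.log 2 + 3 * s < t := by linarith
  exact ⟨S.ph ε t, Measure.dirac 0, 0, fun z w => (S.ph_osc hε ht0 z w).trans_lt (by linarith),
    fun α h0 h1 => ⟨t / ε, S.ph_holder hε (by linarith) ht0 α h0 h1⟩, S.pressure_eq' hε ht2 H,
    S.unique_eq' hb0 hε ht2 H,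
    by simpa using ⟨S.zero_mem_julia' hb0 hb1, S.zero_mem_closure hb0 hb9⟩,
    S.finite_saddles' hb1, fun H => h (H bump)⟩
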